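import Pool.Agent.R811.Abc.Small

/-!
# Unit Jones polynomials of knots in thickened surfaces: many small tangles

Definitions (`Pool.Agent.R811.Abc.Defs`, `Pool.Agent.R811.Abc.Final`, `Pool.Agent.R811.Abc.Bdd`,
`Pool.Agent.R811.Abc.Small`; starting library `Pool.Agent.H891R2.RF.Defs`, `Pool.Agent.H891R2.MT.Defs`,
`Pool.Agent.H891R2.Jones.Diagram`):

* Diagrams only record which marked points are joined by arcs and crossings, so `Diagram P` is a diagram
  of a link in a thickened surface (a virtual link diagram);
* `Outer4`: marked points, arcs, crossings and four corners (`corner t r`, `t` top, `r` right). It is used
  for tangles with four ends and for the part of a diagram outside of a box, a disk in the surface which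
  the diagram meets in four points (there is no condition on the outside);
* `IsTangle T`: in every state of `T` two different curves join the four corners in pairs, both
  horizontally or both vertically, never diagonally (every tangle diagram drawn in a disk, or more generally
  every four-ended diagram on a surface whose regions have a chessboard colouring, has this property);
* `ring W l`: the diagram obtained from the outside `W` by filling its box with the tangles of the list
  `l`, side by side;
* `Orients D U`: the oriented diagram `D` is `U` with some directions; `D.fPoly`: the normalised
  Kauffman bracket, in whose state sum all loops count equally; `IsU f`: `f = ± A^m`, for instance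
  `f = 1`;
* `JonesRow q T`: `T` behaves like a row of `q` crossings: up to one unit `± A^m` the bracket of every
  diagram on a surface which contains `T` is not changed if `T` is replaced by `|q|` crossings in a row, of
  the kind given by the sign of `q`; `IsRow T`: there is such a `q`;
* `size`: the number of crossings plus the number of marked points; `JonesCut T`: as `JonesRow`, with two
  vertical strands in place of a row; `D.IsClosed`: the pieces of `D` form closed oriented curves;
* `brH W`, `brV W`: the brackets of `W` with two horizontal / vertical strands in the box,
  `dd = -A² - A⁻²`;
* `Exc W l`, the exceptional cases: `W` behaves like a vertical cut (`brV W = dd * brH W`, and `brH W` is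
  a unit) and the brackets of the vertical closures of all tangles of `l` are units; or
  `brV W` is a unit, one tangle of `l` behaves like two vertical strands and the brackets of the vertical
  closures of all others are units.
-/

set_option autoImplicit false

namespace Pool.Agent.Results.MP_7bc610_gt.VirtualBoundedTangles

open Pool.Agent.H891R2.Jones Pool.Agent.H891R2.MT Pool.Agent.H891R2.RF Pool.Agent.R811.Abc

open Classical in
/-- For every `s` there is a number `N` such that the following holds. Let `W` be the part outside a box (a
disk met in four points) of a link diagram on a surface of any genus, of size at most `s`, and fill the box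
with arbitrarily many tangles `T₁, …, Tₙ`, side by side, each of which behaves like a row of crossings or has
size at most `s`. If the resulting link in the thickened surface has the Jones polynomial `1` (or `± A^m`),
then at most `N` of the tangles do not behave like rows, and the total number `∑ q i` of the crossings of
the rows has absolute value at most `N`; or one of the exceptional cases `Exc W l` holds. -/
theorem result (s : ℕ) : ∃ N : ℕ,
    ∀ (W : Outer4) (l : List Outer4), size W ≤ s →
      (∀ T ∈ l, IsTangle T) → (∀ T ∈ l, IsRow T ∨ size T ≤ s) →
      ∀ D : Diagram (puts W l).P, Orients D (ring W l) → D.IsClosed → IsU D.fPoly →
        (l.countP (fun T => ¬ IsRow T) ≤ N ∧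
          ∀ q : Outer4 → ℤ, (∀ T ∈ l, JonesRow (q T) T ∨ (¬ IsRow T ∧ q T = 0)) →
            |(l.map q).sum| ≤ N) ∨ Exc W l := by
  obtain ⟨N, hN⟩ := small s
  refine ⟨N, ?_⟩
  intro W l hW hT hl D hD _ hf
  have : Nonempty (puts W l).P := ⟨(puts W l).corner false false⟩
  exact hN W l hW hT hl (IsU.bracket D _ hD hf)

end Pool.Agent.Results.MP_7bc610_gt.VirtualBoundedTangles
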