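import Pool.Agent.R811.Abc.General

/-!
# Unit Jones polynomials of knots in thickened surfaces: repeated tangles

Definitions (`Pool.Agent.R811.Abc.Defs`, `Pool.Agent.R811.Abc.Final`; starting library
`Pool.Agent.H891R2.RF.Defs`, `Pool.Agent.H891R2.MT.Defs`, `Pool.Agent.H891R2.Jones.Diagram`):

* Diagrams only record which marked points are joined by arcs and crossings, so `Diagram P` is a diagram
  of a link in a thickened surface (a virtual link diagram);
* `Outer4`: marked points, arcs, crossings and four corners (`corner t r`, `t` top, `r` right). It is used
  for tangles with four ends and for the part of a diagram outside of a box, a disk in the surface which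
  the diagram meets in four points (there is no condition on the outside);
* `IsTangle T`: in every state of `T` two different curves join the four corners in pairs, both
  horizontally or both vertically, never diagonally (every tangle diagram drawn in a disk, or more generally
  every four-ended diagram on a surface whose regions have a chessboard colouring, has this property);
* `ring W l`: the diagram obtained from the outside `W` by filling its box with the tangles of the list
  `l`, side by side;
* `Orients D U`: the oriented diagram `D` is `U` with some directions; `D.fPoly`: the normalised
  Kauffman bracket, in whose state sum all loops count equally; `IsU f`: `f = ± A^m`, for instance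
  `f = 1`;
* `JonesRow q T`: `T` behaves like a row of `q` crossings: up to one unit `± A^m` the bracket of every
  diagram on a surface which contains `T` is not changed if `T` is replaced by `|q|` crossings in a row, of
  the kind given by the sign of `q`;
* `brH W`, `brV W`: the brackets of `W` with two horizontal / vertical strands in the box,
  `dd = -A² - A⁻²`; `D.IsClosed`: the pieces of `D` form closed oriented curves.
-/

set_option autoImplicit false

namespace Pool.Agent.Results.MP_7bc610_gt.VirtualRepeatedTangles

open Pool.Agent.H891R2.Jones Pool.Agent.H891R2.MT Pool.Agent.H891R2.RF Pool.Agent.R811.Abc

/-- Let `W` be the part outside a box (a disk met in four points) of a link diagram on a surface of any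
genus, with `C` crossings and `p` marked points, let `T 0, …, T (r-1)` be arbitrary tangles and let the box
be filled with `T_{c 1}, …, T_{c n}`, side by side, where every tangle occurs at least `2 C + 4 p + 5` times.
If the resulting link in the thickened surface has the Jones polynomial `1` or `± A^m`, then every `T i`
behaves like a row of crossings; or `W` behaves like a vertical cut: then
`⟨W with vertical strands⟩ = d ⟨W with horizontal strands⟩`, the latter is a unit, and the closures of
all `T i` by vertical strands have trivial Jones polynomials up to a unit. -/
theorem result (r : ℕ) (T : Fin r → Outer4) (hT : ∀ i, IsTangle (T i)) (c : List (Fin r))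
    (W : Outer4) (hc : ∀ i, 2 * W.crossings.length + 4 * Fintype.card W.P + 5 ≤ c.count i)
    (D : Diagram (puts W (c.map T)).P) (hD : Orients D (ring W (c.map T))) (_hK : D.IsClosed)
    (hf : IsU D.fPoly) :
    (∃ q : Fin r → ℤ, ∀ i, JonesRow (q i) (T i)) ∨
      (brV W = dd * brH W ∧ IsU (brH W) ∧ ∀ i, IsU (brV (T i))) := by
  have : Nonempty (puts W (c.map T)).P := ⟨(puts W (c.map T)).corner false false⟩
  exact general_case T hT W c hc (IsU.bracket D _ hD hf)

end Pool.Agent.Results.MP_7bc610_gt.VirtualRepeatedTangles
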